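import Pool.Agent.Helper72.MK.Goals

/-!
# The planar inequality in standard position (packet MK-PLS)
-/

open MeasureTheory Set Filter Topology
open scoped ENNReal
open Pool.Agent.Helper47.AQ Pool.Agent.Helper72.MK

namespace Pool.Agent.Helper50.MK

lemma exists_width {P : Set (Fin 2 → ℝ)} (hP : IsBody P) (p : Fin 2 → ℝ) :
    ∃ x ∈ P, ∃ y ∈ P, ∀ x' ∈ P, ∀ y' ∈ P,
      ∑ i, p i * (x' i - y' i) ≤ ∑ i, p i * (x i - y i) := by
  have hc : Continuous (fun z : (Fin 2 → ℝ) × (Fin 2 → ℝ) => ∑ i, p i * (z.1 i - z.2 i)) := by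
    fun_prop
  obtain ⟨z, hz, hmax⟩ := (hP.comp.prod hP.comp).exists_isMaxOn
    (hP.nonempty.prod hP.nonempty) hc.continuousOn
  refine ⟨z.1, hz.1, z.2, hz.2, fun x' hx' y' hy' => ?_⟩
  exact hmax (show (x', y') ∈ P ×ˢ P from ⟨hx', hy'⟩)

/-- Packet PLS. -/
theorem pls (hHEX : HEXStmt) (hCHORD : CHORDStmt) (hBODY : BODYStmt) : PLSStmt := by
  rintro P hP ⟨x1, hx1, hx1'⟩ ⟨x2, hx2, hx2'⟩ ⟨x3, hx3, hx3'⟩ ⟨p, hp, hp1⟩ ⟨q, hq, hq1⟩
    ⟨r, hr, hr1⟩
  obtain ⟨hL, hLs⟩ := hBODY (Fin 2) P hP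
  -- the inequalities for the points of the polar
  have key : ∀ a ∈ dpol P, a 0 ≤ 1 ∧ -1 ≤ a 0 ∧ a 1 ≤ 1 ∧ -1 ≤ a 1 ∧ a 0 + a 1 ≤ 1 ∧
      -1 ≤ a 0 + a 1 := by
    intro a ha
    have h1 := ha _ hx1' _ hx1
    have h2 := ha _ hx1 _ hx1'
    have h3 := ha _ hx2' _ hx2
    have h4 := ha _ hx2 _ hx2'
    have h5 := ha _ hx3' _ hx3
    have h6 := ha _ hx3 _ hx3'
    simp only [Fin.sum_univ_two, Pi.add_apply, Matrix.cons_val_zero, Matrix.cons_val_one]
      at h1 h2 h3 h4 h5 h6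
    refine ⟨by linarith, by linarith, by linarith, by linarith, by linarith, by linarith⟩
  have kp := key p hp
  have kq := key q hq
  have kr := key r hr
  -- the widths
  obtain ⟨a1, ha1, b1, hb1, hw1⟩ := exists_width hP ![1, 0]
  obtain ⟨a2, ha2, b2, hb2, hw2⟩ := exists_width hP ![0, 1]
  obtain ⟨a3, ha3, b3, hb3, hw3⟩ := exists_width hP ![1, -1]
  simp only [Fin.sum_univ_two, Matrix.cons_val_zero, Matrix.cons_val_one, one_mul, zero_mul,
    add_zero, zero_add, neg_mul] at hw1 hw2 hw3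
  set w1 : ℝ := a1 0 - b1 0 with hw1def
  set w2 : ℝ := a2 1 - b2 1 with hw2def
  set w3 : ℝ := a3 0 - b3 0 + -(a3 1 - b3 1) with hw3def
  have hw1' : 1 ≤ w1 := by
    have := hw1 _ hx1' _ hx1
    simp only [Pi.add_apply, Matrix.cons_val_zero] at this
    linarith
  set W : ℝ := max w1 (max w2 w3) with hW
  have hWw1 : w1 ≤ W := le_max_left _ _
  have hWw2 : w2 ≤ W := (le_max_left _ _).trans (le_max_right _ _)
  have hWw3 : w3 ≤ W := (le_max_right _ _).trans (le_max_right _ _)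
  have hW0 : 0 < W := by linarith
  set m : ℝ := 1 / W with hm
  have hm0 : 0 < m := by positivity
  have hmW : m * W = 1 := by
    rw [hm]
    field_simp
  -- points of the polar
  have hpL : (![1, -(-p 1)] : Fin 2 → ℝ) ∈ dpol P := by
    have : (![1, -(-p 1)] : Fin 2 → ℝ) = p := by
      ext i
      fin_cases i
      · simp [hp1]
      · simp
    rw [this]
    exact hp
  have hqL : (![-(-q 0), 1] : Fin 2 → ℝ) ∈ dpol P := by
    have : (![-(-q 0), 1] : Fin 2 → ℝ) = q := by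
      ext i
      fin_cases i
      · simp
      · simp [hq1]
    rw [this]
    exact hq
  have hrL : (![r 0, 1 - r 0] : Fin 2 → ℝ) ∈ dpol P := by
    have : (![r 0, 1 - r 0] : Fin 2 → ℝ) = r := by
      ext i
      fin_cases i
      · simp
      · simp
        linarith
    rw [this]
    exact hr
  have hm1 : (![m, 0] : Fin 2 → ℝ) ∈ dpol P := by
    intro x hx y hy
    simp only [Fin.sum_univ_two, Matrix.cons_val_zero, Matrix.cons_val_one, zero_mul, add_zero]
    have h1 := hw1 x hx y hy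
    have h2 := mul_le_mul_of_nonneg_left (h1.trans hWw1) hm0.le
    linarith
  have hm2 : (![0, m] : Fin 2 → ℝ) ∈ dpol P := by
    intro x hx y hy
    simp only [Fin.sum_univ_two, Matrix.cons_val_zero, Matrix.cons_val_one, zero_mul, zero_add]
    have h1 := hw2 x hx y hy
    have h2 := mul_le_mul_of_nonneg_left (h1.trans hWw2) hm0.le
    linarith
  have hm3 : (![-m, m] : Fin 2 → ℝ) ∈ dpol P := by
    intro x hx y hy
    simp only [Fin.sum_univ_two, Matrix.cons_val_zero, Matrix.cons_val_one]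
    have h1 := hw3 y hy x hx
    have h2 := mul_le_mul_of_nonneg_left (h1.trans hWw3) hm0.le
    nlinarith
  have hvolL : ENNReal.ofReal (3 * m) ≤ volume (dpol P) :=
    hHEX (dpol P) hL.conv hLs (-p 1) (-q 0) (r 0) m (by linarith [kp.2.2.2.2.1])
      (by linarith [kp.2.2.2.1]) (by linarith [kq.2.2.2.2.1]) (by linarith [kq.2.1])
      (by linarith [kr.2.2.1]) kr.1 hm0.le hpL hqL hrL hm1 hm2 hm3
  -- area of the body
  have hc1 := hCHORD P hP.conv x1 ![1, 0] a2 b2 hx1 hx1' ha2 hb2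
  have hc2 := hCHORD P hP.conv x2 ![0, 1] a1 b1 hx2 hx2' ha1 hb1
  have hc3 := hCHORD P hP.conv x3 ![1, 1] a3 b3 hx3 hx3' ha3 hb3
  simp only [Matrix.cons_val_zero, Matrix.cons_val_one, one_mul, zero_mul, sub_zero, zero_sub,
    abs_neg] at hc1 hc2 hc3
  have hV := hP.vol_ne_top
  have toR : ∀ c : ℝ, ENNReal.ofReal c ≤ volume P → c ≤ (volume P).toReal := by
    intro c hc
    exact (ENNReal.ofReal_le_iff_le_toReal hV).mp hc
  have d1 := toR _ hc1
  have d2 := toR _ hc2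
  have d3 := toR _ hc3
  have e1 : w2 ≤ |a2 1 - b2 1| := le_abs_self _
  have e2 : w1 ≤ |a1 0 - b1 0| := le_abs_self _
  have e3 : w3 ≤ |a3 1 - b3 1 - (a3 0 - b3 0)| := by
    rw [abs_sub_comm]
    refine le_trans ?_ (le_abs_self _)
    rw [hw3def]
    linarith
  have hVW : W / 2 ≤ (volume P).toReal := by
    have : W ≤ 2 * (volume P).toReal := by
      rw [hW]
      refine max_le ?_ (max_le ?_ ?_)
      · linarith
      · linarith
      · linarith
    linarith
  have hL2 : 3 * m ≤ (volume (dpol P)).toReal :=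
    (ENNReal.ofReal_le_iff_le_toReal hP.dpol_ne_top).mp hvolL
  unfold F
  calc (3 / 2 : ℝ) = (W / 2) * (3 * m) := by
        have : (W / 2) * (3 * m) = 3 / 2 * (m * W) := by ring
        rw [this, hmW]
        ring
    _ ≤ (volume P).toReal * (volume (dpol P)).toReal :=
        mul_le_mul hVW hL2 (by positivity) ENNReal.toReal_nonneg

end Pool.Agent.Helper50.MK
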